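import Pool.Agent.X265.Inf.Words
import Pool.Agent.X176.FJ.Retr
import Pool.Agent.Y179.SS.Free

/-!
# Groups of bounded automorphisms over infinite alphabets
-/

set_option autoImplicit false

namespace Pool.Agent.X265.Inf

open Pool.Agent.Y462.SS Pool.Agent.Y110.FJ Pool.Agent.X176.FJ Pool.Agent.Y331.SS
open Pool.Agent.X265.Ctr
open Monoid

/-! ## restricted products and free products of families -/

/-- the restricted product of a family -/
def RPr {I : Type} (A : I → Type) [∀ i, Group (A i)] : Subgroup (∀ i, A i) where
  carrier := {f | {i | f i ≠ 1}.Finite}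
  one_mem' := by simp
  mul_mem' := by
    intro a b ha hb
    refine (ha.union hb).subset ?_
    intro x hx
    by_contra hn
    simp only [Set.mem_union, Set.mem_ofPred_eq, not_or, not_not] at hn
    exact hx (by rw [Pi.mul_apply, hn.1, hn.2, one_mul])
  inv_mem' := by
    intro a ha
    refine ha.subset ?_
    intro x hx h
    exact hx (by rw [Pi.inv_apply, h, inv_one])

/-- functions with support in a finite set -/
def RPs {I : Type} (A : I → Type) [∀ i, Group (A i)] (s : Finset I) : Subgroup (RPr A) where
  carrier := {f | ∀ i, i ∉ s → f.1 i = 1}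
  one_mem' := fun _ _ => rfl
  mul_mem' := by
    intro a b ha hb i hi
    change a.1 i * b.1 i = 1
    rw [ha i hi, hb i hi, one_mul]
  inv_mem' := by
    intro a ha i hi
    change (a.1 i)⁻¹ = 1
    rw [ha i hi, inv_one]

theorem c_RPs {C : ∀ (G : Type) [Group G], Prop} (hC : Closed C) {I : Type} (A : I → Type)
    [∀ i, Group (A i)] (h : ∀ i, C (A i)) (s : Finset I) : C (RPs A s) := by
  classical
  induction s using Finset.induction_on with
  | empty =>
    have : Subsingleton (RPs A ∅) := ⟨fun a b => by
      apply Subtype.ext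
      apply Subtype.ext
      funext i
      rw [a.2 i (Finset.notMem_empty i), b.2 i (Finset.notMem_empty i)]⟩
    exact Pool.Agent.Y812.SS.C_subsingleton hC _
  | insert a s ha ih =>
    let f : RPs A (insert a s) →* A a × RPs A s :=
      { toFun := fun g => (g.1.1 a, ⟨⟨fun i => if i = a then 1 else g.1.1 i, by
          refine g.1.2.subset ?_
          intro i hi h2
          apply hi
          change (if i = a then (1 : A i) else g.1.1 i) = 1
          by_cases hia : i = a
          · rw [if_pos hia]
          · rw [if_neg hia]; exact h2⟩, by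
          intro i hi
          change (if i = a then 1 else g.1.1 i) = 1
          by_cases hia : i = a
          · rw [if_pos hia]
          · rw [if_neg hia]
            exact g.2 i (by rw [Finset.mem_insert]; tauto)⟩)
        map_one' := by
          apply Prod.ext
          · rfl
          · apply Subtype.ext
            apply Subtype.ext
            funext i
            change (if i = a then (1 : A i) else 1) = 1
            rw [ite_self]
        map_mul' := by
          intro g g'
          apply Prod.ext
          · rfl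
          · apply Subtype.ext
            apply Subtype.ext
            funext i
            change (if i = a then (1 : A i) else g.1.1 i * g'.1.1 i) =
              (if i = a then (1 : A i) else g.1.1 i) * (if i = a then (1 : A i) else g'.1.1 i)
            by_cases hia : i = a
            · rw [if_pos hia, if_pos hia, if_pos hia, one_mul]
            · rw [if_neg hia, if_neg hia, if_neg hia] }
    refine hC.of_injective _ _ f ?_ (hC.prod _ _ (h a) ih)
    intro g g' hg
    apply Subtype.ext
    apply Subtype.ext
    funext i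
    by_cases hia : i = a
    · subst hia
      exact congrArg Prod.fst hg
    · have h1 := congrFun (congrArg Subtype.val (congrArg Subtype.val (congrArg Prod.snd hg))) i
      change (if i = a then (1 : A i) else g.1.1 i) = (if i = a then (1 : A i) else g'.1.1 i) at h1
      rwa [if_neg hia, if_neg hia] at h1

theorem c_RPr {C : ∀ (G : Type) [Group G], Prop} (hC : Closed C) {I : Type} (A : I → Type)
    [∀ i, Group (A i)] (h : ∀ i, C (A i)) : C (RPr A) := by
  classical
  refine Pool.Agent.Y430.SS.of_directed hC (RPr A) (Finset I)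
    (fun s t => ⟨s ∪ t, Finset.subset_union_left, Finset.subset_union_right⟩)
    (RPs A) ?_ ?_ (c_RPs hC A h)
  · intro s t hst g hg i hi
    exact hg i fun h2 => hi (hst h2)
  · intro g
    refine ⟨g.2.toFinset, fun i hi => ?_⟩
    by_contra h2
    exact hi (g.2.mem_toFinset.2 h2)

theorem c_coprodI {C : ∀ (G : Type) [Group G], Prop} (hC : ClosedE C) {I : Type} (A : I → Type)
    [∀ i, Group (A i)] (h : ∀ i, C (A i)) : C (CoprodI A) := by
  classical
  let s : ∀ i, A i →* RPr A := fun i =>
    { toFun := fun a => ⟨Pi.mulSingle i a, (Set.finite_singleton i).subset (by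
        intro j hj
        by_contra h2
        exact hj (Pi.mulSingle_eq_of_ne h2 a))⟩
      map_one' := Subtype.ext (Pi.mulSingle_one i)
      map_mul' := fun a b => Subtype.ext (Pi.mulSingle_mul i a b) }
  let e : ∀ i, RPr A →* A i := fun i => (Pi.evalMonoidHom A i).comp (RPr A).subtype
  let F : CoprodI A →* CoprodI (fun _ : I => RPr A) :=
    CoprodI.lift fun i => (CoprodI.of (M := fun _ : I => RPr A) (i := i)).comp (s i)
  let E : CoprodI (fun _ : I => RPr A) →* CoprodI A := CoprodI.lift fun i => CoprodI.of.comp (e i)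
  have h1 : E.comp F = MonoidHom.id _ := by
    apply CoprodI.ext_hom
    intro i
    apply MonoidHom.ext
    intro a
    change E (F (CoprodI.of a)) = CoprodI.of a
    rw [CoprodI.lift_of]
    change E (CoprodI.of (M := fun _ : I => RPr A) (i := i) (s i a)) = CoprodI.of a
    rw [CoprodI.lift_of]
    change CoprodI.of ((Pi.mulSingle i a : ∀ i, A i) i) = CoprodI.of a
    rw [Pi.mulSingle_eq_same]
  refine hC.base.of_injective _ _ F ?_ (c_free hC (c_RPr hC.base A h))
  intro x y hxy
  have h2 := congrArg E hxy
  exact ((DFunLike.congr_fun h1 x).symm.trans h2).trans (DFunLike.congr_fun h1 y)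

/-! ## the cover is in the class -/

variable {X : Type} {P : Subgroup (Equiv.Perm X)}

theorem c_Gam {C : ∀ (G : Type) [Group G], Prop} (hC : ClosedE C) (hP : C P) : C (Gam P) := by
  have h1 : C (CoprodI (DT P)) := c_coprodI hC (DT P) fun c => c_D hC hP (rep P c)
  have h2 : C (FreeGroup (ℕ → X)) := Pool.Agent.Y179.SS.t_free C hC.base _
  have h3 : C (Gam1 P) := hC.base.coprod _ _ h1 h2
  exact hC.base.coprod ↥(Fn P) (Gam1 P) (c_Fn hC hP) h3

variable (P) in
/-- the group generated by the finitary and the directed automorphisms -/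
noncomputable def HH : Subgroup (T X) := (tau (psi P)).range

theorem c_HH {C : ∀ (G : Type) [Group G], Prop} (hC : ClosedE C) (hP : C P) : C (HH P) :=
  c_range hC hP (psi P) psi_mem (c_Gam hC hP) (Nn P) en_all fun _ ha h => Nn_det ha h

theorem HH_sec {g : T X} (hg : g ∈ HH P) (x : X) : sec g x ∈ HH P := by
  obtain ⟨γ, rfl⟩ := hg
  exact ⟨_, (sec_tau _ γ x).symm⟩

theorem HH_of_Fn {f : T X} (hf : f ∈ Fn P) : f ∈ HH P := ⟨_, tau_fF hf⟩

theorem HH_of_dir {g : T X} {ρ : ℕ → X} (hg : Dir P g ρ) : g ∈ HH P := ⟨_, tau_mor hg⟩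

/-! ## bounded automorphisms -/

theorem FP_secW {g : T X} (hg : g ∈ FP P) (v : List X) : secW g v ∈ FP P := by
  intro w
  rw [secW, ← secG_append]
  exact hg (v ++ w)

theorem Fn_of_depthAt {g : T X} (hg : g ∈ FP P) {v : List X} {k : ℕ} (h : DepthAt g.1 v k) :
    secW g v ∈ Fn P := by
  refine ⟨FP_secW hg v, k, ?_⟩
  apply mem_Lv_of_sections
  intro u hu
  rw [Subgroup.mem_bot, secW, secW, ← secG_append]
  apply eq_of_isSec (g := g) (h := 1)
  intro w
  exact h u w hu

/-- the prefix of a ray -/
def pre (ρ : ℕ → X) (n : ℕ) : List X := List.ofFn fun i : Fin n => ρ i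

theorem length_pre (ρ : ℕ → X) (n : ℕ) : (pre ρ n).length = n := List.length_ofFn

theorem pre_succ (ρ : ℕ → X) (n : ℕ) : pre ρ (n + 1) = pre ρ n ++ [ρ n] := by
  rw [pre, List.ofFn_succ_last]
  rfl

theorem onRay_iff (ρ : ℕ → X) (v : List X) : OnRay ρ v ↔ v = pre ρ v.length := Iff.rfl

theorem onRay_prefix {ρ : ℕ → X} {v w : List X} (h : OnRay ρ (v ++ w)) : OnRay ρ v := by
  have h1 : ∀ i (hi : i < (v ++ w).length), (v ++ w)[i] = ρ i := by
    intro i hi
    have h2 : v ++ w = pre ρ (v ++ w).length := h
    have h3 : (v ++ w)[i] = (pre ρ (v ++ w).length)[i]'(by rw [length_pre]; exact hi) := by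
      congr 1
    rw [h3]
    simp [pre]
  rw [onRay_iff]
  apply List.ext_getElem
  · rw [length_pre]
  · intro i hi _
    have h4 := h1 i (by rw [List.length_append]; omega)
    rw [List.getElem_append_left hi] at h4
    rw [h4]
    simp [pre]

theorem rs_eq (g : T X) (ρ : ℕ → X) (n : ℕ) : rs g ρ n = secW g (pre ρ n) := by
  induction n with
  | zero => rfl
  | succ n ih => rw [rs_succ, ih, pre_succ, secW_snoc]

/-- shift by `n` -/
def shn (ρ : ℕ → X) (n : ℕ) : ℕ → X := fun i => ρ (n + i)

theorem pre_add (ρ : ℕ → X) (m n : ℕ) : pre ρ (m + n) = pre ρ m ++ pre (shn ρ m) n := by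
  induction n with
  | zero => simp [pre]
  | succ n ih =>
    rw [← Nat.add_assoc, pre_succ, ih, pre_succ, List.append_assoc]
    rfl

/-- a bounded automorphism of finite type is in the group `HH` at some level -/
theorem gen_level {g : T X} (hg : g ∈ FP P) (hF : (Sections g.1).Finite) (hB : IsBdd g.1) :
    ∃ n, ∀ v : List X, v.length = n → secW g v ∈ HH P := by
  classical
  obtain ⟨R, k, hRk⟩ := hB
  -- the finitely many sections
  have hsec : {h : T X | ∃ v, h = secW g v}.Finite := by
    refine Set.Finite.of_finite_image (f := fun h : T X => (h.1 : List X → List X))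
      (hF.subset ?_) ?_
    · rintro _ ⟨_, ⟨v, rfl⟩, rfl⟩
      exact ⟨v, apply_append g v⟩
    · intro a _ b _ hab
      exact Subtype.ext (Equiv.ext (congrFun hab))
  -- a level where the rays are separated
  have hn : ∃ n, ∀ ρ ∈ R, ∀ σ ∈ R, pre ρ n = pre σ n → ρ = σ := by
    have h1 : ∀ p : (ℕ → X) × (ℕ → X), ∃ n, p.1 ≠ p.2 → p.1 n ≠ p.2 n := by
      intro p
      by_cases hp : p.1 = p.2
      · exact ⟨0, fun h => absurd hp h⟩
      · obtain ⟨n, hn⟩ := Function.ne_iff.1 hp
        exact ⟨n, fun _ => hn⟩
    choose c hc using h1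
    refine ⟨(R ×ˢ R).sup c + 1, fun ρ hρ σ hσ h => ?_⟩
    by_contra hne
    have h2 : c (ρ, σ) ≤ (R ×ˢ R).sup c :=
      Finset.le_sup (f := c) (Finset.mk_mem_product hρ hσ)
    apply hc (ρ, σ) hne
    have h3 := congrArg (fun l : List X => l[c (ρ, σ)]?) h
    have h4 : c (ρ, σ) < (R ×ˢ R).sup c + 1 := by omega
    simp only [pre] at h3
    rw [List.getElem?_eq_getElem (by rw [List.length_ofFn]; exact h4),
      List.getElem?_eq_getElem (by rw [List.length_ofFn]; exact h4), List.getElem_ofFn,
      List.getElem_ofFn] at h3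
    exact Option.some.inj h3
  obtain ⟨n, hn⟩ := hn
  refine ⟨n, fun v hv => ?_⟩
  by_cases hray : ∀ ρ ∈ R, ¬ OnRay ρ v
  · exact HH_of_Fn (Fn_of_depthAt hg (hRk v hray))
  · push Not at hray
    obtain ⟨ρ, hρ, hv'⟩ := hray
    have hvp : v = pre ρ n := by
      have h1 := (onRay_iff ρ v).1 hv'
      rw [hv] at h1
      exact h1
    -- sections off the ray
    have hoff : ∀ m x, x ≠ shn ρ n m → sec (rs (secW g v) (shn ρ n) m) x ∈ Fn P := by
      intro m x hx
      have h1 : sec (rs (secW g v) (shn ρ n) m) x = secW g (pre ρ (n + m) ++ [x]) := by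
        rw [rs_eq, secW_snoc, hvp, pre_add, secW, secW, secW, ← secG_append]
      rw [h1]
      apply Fn_of_depthAt hg
      apply hRk
      intro σ hσ hon
      have h2 : OnRay σ (pre ρ (n + m)) := onRay_prefix hon
      have h3 : OnRay σ (pre ρ n) := by
        rw [pre_add] at h2
        exact onRay_prefix h2
      have h4 : ρ = σ := by
        apply hn ρ hρ σ hσ
        have h5 := (onRay_iff _ _).1 h3
        rw [length_pre] at h5
        exact h5
      subst h4
      have h6 := (onRay_iff _ _).1 hon
      rw [List.length_append, length_pre, List.length_singleton, pre_succ] at h6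
      have h7 := List.append_cancel_left h6
      exact hx (List.singleton_injective h7)
    have hrs : ∀ m, rs (secW g v) (shn ρ n) m ∈ {h : T X | ∃ v, h = secW g v} := by
      intro m
      refine ⟨pre ρ (n + m), ?_⟩
      rw [rs_eq, hvp, pre_add, secW, secW, secW, ← secG_append]
    have hrsFP : ∀ m, rs (secW g v) (shn ρ n) m ∈ FP P := by
      intro m
      obtain ⟨u, hu⟩ := hrs m
      rw [hu]
      exact FP_secW hg u
    apply HH_of_dir (ρ := shn ρ n)
    refine ⟨FP_secW hg v, fun m => ?_, ?_⟩
    · have h1 := (mem_FP_iff.1 (hrsFP m)).1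
      refine ⟨⟨h1.1, ((Set.finite_singleton (1 : T X)).union h1.2).subset ?_⟩, fun x => ?_⟩
      · rintro _ ⟨x, rfl⟩
        by_cases hxx : x = shn ρ n m
        · rw [hxx, st_s_self]
          exact Or.inl rfl
        · rw [st_s_ne _ _ _ hxx]
          exact Or.inr ⟨x, rfl⟩
      · by_cases hxx : x = shn ρ n m
        · rw [hxx, st_s_self]
          exact one_mem _
        · rw [st_s_ne _ _ _ hxx]
          exact hoff m x hxx
    · by_cases hfin : ∃ m, rs (secW g v) (shn ρ n) m ∈ Fn P
      · -- the sections on the ray become trivial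
        obtain ⟨m, _, j, hj⟩ := hfin
        have h1 : ∀ i j, rs (secW g v) (shn ρ n) i ∈ Lv (⊥ : Subgroup (T X)) j →
            rs (secW g v) (shn ρ n) (i + j) = 1 := by
          intro i j
          induction j generalizing i with
          | zero => exact fun h => Subgroup.mem_bot.1 h
          | succ j ihj =>
            intro h
            have h2 := ihj (i + 1) (h _)
            rwa [show i + 1 + j = i + (j + 1) from by omega] at h2
        have h2 : ∀ i, rs (secW g v) (shn ρ n) (m + j + i) = 1 := by
          intro i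
          induction i with
          | zero => exact h1 m j hj
          | succ i ih => rw [← Nat.add_assoc, rs_succ, ih, sec_one]
        have h3 : ∀ i, m + j ≤ i → st (secW g v) (shn ρ n) i = 1 := by
          intro i hi
          obtain ⟨i, rfl⟩ := Nat.exists_eq_add_of_le hi
          apply Wr.ext
          · funext x
            by_cases hxx : x = shn ρ n (m + j + i)
            · rw [hxx, st_s_self]
              rfl
            · rw [st_s_ne _ _ _ hxx, h2, sec_one]
              rfl
          · rw [st_p, h2, root_one]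
            rfl
        refine (((Set.finite_lt_nat (m + j)).image (st (secW g v) (shn ρ n))).union
          (Set.finite_singleton 1)).subset ?_
        rintro _ ⟨i, rfl⟩
        by_cases hi : i < m + j
        · exact Or.inl ⟨i, hi, rfl⟩
        · exact Or.inr (h3 i (by omega))
      · push Not at hfin
        let φ : T X → Wr X (T X) := fun q =>
          ⟨fun x => if sec q x ∈ Fn P then sec q x else 1, root q⟩
        refine (hsec.image φ).subset ?_
        rintro _ ⟨m, rfl⟩
        refine ⟨_, hrs m, ?_⟩
        apply Wr.ext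
        · funext x
          change (if sec (rs (secW g v) (shn ρ n) m) x ∈ Fn P then
            sec (rs (secW g v) (shn ρ n) m) x else 1) = _
          by_cases hxx : x = shn ρ n m
          · rw [hxx, st_s_self, ← rs_succ, if_neg (hfin (m + 1))]
          · rw [st_s_ne _ _ _ hxx, if_pos (hoff m x hxx)]
        · rfl

/-! ## the main theorem -/

/-- groups generated by bounded automorphisms of finite type over any alphabet with vertex
permutations in a group in `C` -/
theorem main {C : ∀ (G : Type) [Group G], Prop} (hC : ClosedE C) (hP : C P) (G : Type) [Group G]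
    (f : G →* Equiv.Perm (List X)) (hf : Function.Injective f) (S : Set G)
    (hS : Subgroup.closure S = ⊤) (hT : ∀ s ∈ S, IsTree (f s)) (hL : ∀ s ∈ S, LocIn P (f s))
    (hF : ∀ s ∈ S, (Sections (f s)).Finite) (hB : ∀ s ∈ S, IsBdd (f s)) : C G := by
  have hmem : ∀ g, f g ∈ T X := by
    have h1 : Subgroup.closure S ≤ (T X).comap f := by
      rw [Subgroup.closure_le]
      exact hT
    intro g
    have h2 : g ∈ Subgroup.closure S := by rw [hS]; exact Subgroup.mem_top g
    exact h1 h2
  let f' : G →* T X := f.codRestrict (T X) hmem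
  have hf' : Function.Injective f' := fun a b h => hf (congrArg Subtype.val h)
  let K : ℕ → Subgroup G := fun n => (Lv (HH P) n ⊓ FP P).comap f'
  have hK : Monotone K := by
    apply monotone_nat_of_le_succ
    intro n g hg
    exact ⟨Lv_le_succ (fun g hg x => HH_sec hg x) n hg.1, hg.2⟩
  have hKS : ∀ s ∈ S, ∃ n, s ∈ K n := by
    intro s hs
    have h1 : f' s ∈ FP P := mem_FP_of_locIn (g := f' s) (hL s hs)
    obtain ⟨n, hn⟩ := gen_level (g := f' s) h1 (hF s hs) (hB s hs)
    exact ⟨n, mem_Lv_of_sections n _ hn, h1⟩
  let U : Subgroup G :=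
    { carrier := {g | ∃ N, g ∈ K N}
      one_mem' := ⟨0, one_mem _⟩
      mul_mem' := by
        rintro a b ⟨m, hm⟩ ⟨n, hn⟩
        exact ⟨max m n, mul_mem (hK (le_max_left m n) hm) (hK (le_max_right m n) hn)⟩
      inv_mem' := by
        rintro a ⟨m, hm⟩
        exact ⟨m, inv_mem hm⟩ }
  have hU : Subgroup.closure S ≤ U := by
    rw [Subgroup.closure_le]
    exact hKS
  have hall : ∀ g, ∃ N, g ∈ K N := by
    intro g
    have h2 : g ∈ Subgroup.closure S := by rw [hS]; exact Subgroup.mem_top g
    exact hU h2
  refine Pool.Agent.Y430.SS.t_union C hC.base G K hK hall ?_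
  intro n
  let φ : K n →* (Lv (HH P) n ⊓ FP P : Subgroup (T X)) :=
    { toFun := fun g => ⟨f' g.1, g.2⟩
      map_one' := Subtype.ext (map_one f')
      map_mul' := fun a b => Subtype.ext (map_mul f' a.1 b.1) }
  refine hC.base.of_injective _ _ φ ?_ (Lv_closed' hC hP (HH P) (c_HH hC hP) n)
  intro a b hab
  have h0 : (φ a).1 = (φ b).1 := congrArg Subtype.val hab
  exact Subtype.ext (hf' h0)

/-- all vertex permutations of `g` are in `P` -/
def VertexIn {X : Type} (P : Subgroup (Equiv.Perm X)) (g : Equiv.Perm (List X)) : Prop :=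
  ∀ v : List X, ∃ p ∈ P, ∀ x, g (v ++ [x]) = g v ++ [p x]

theorem locIn_of_vertexIn {g : Equiv.Perm (List X)} (h : VertexIn P g)
    (hF : (Sections g).Finite) : LocIn P g := by
  intro v
  refine ⟨h v, ?_⟩
  refine Set.Finite.of_finite_image (f := fun h : Equiv.Perm (List X) => (h : List X → List X))
    (hF.subset ?_) ?_
  · rintro _ ⟨k, ⟨x, hk⟩, rfl⟩
    exact ⟨v ++ [x], hk⟩
  · intro a _ b _ hab
    exact Equiv.ext (congrFun hab)

/-- groups generated by bounded finite-state automorphisms over any alphabet with vertex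
permutations in a group in `C` -/
theorem bounded {C : ∀ (G : Type) [Group G], Prop} (hC : ClosedE C) (hP : C P) (G : Type)
    [Group G] (f : G →* Equiv.Perm (List X)) (hf : Function.Injective f) (S : Set G)
    (hS : Subgroup.closure S = ⊤) (hT : ∀ s ∈ S, IsTree (f s)) (hL : ∀ s ∈ S, VertexIn P (f s))
    (hF : ∀ s ∈ S, (Sections (f s)).Finite) (hB : ∀ s ∈ S, IsBdd (f s)) : C G :=
  main hC hP G f hf S hS hT (fun s hs => locIn_of_vertexIn (hL s hs) (hF s hs)) hF hB

end Pool.Agent.X265.Inf
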