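import Pool.Agent.X265.Inf.Ray

/-!
# The contracting cover of the group of directed and finitary automorphisms
-/

set_option autoImplicit false

namespace Pool.Agent.X265.Inf

open Pool.Agent.Y462.SS Pool.Agent.Y110.FJ Pool.Agent.X176.FJ Pool.Agent.Y331.SS
open Pool.Agent.X265.Ctr
open Monoid

noncomputable section

variable {X : Type} (P : Subgroup (Equiv.Perm X))

/-- rays related by directed automorphisms -/
def rsetoid : Setoid (ℕ → X) where
  r ρ η := ∃ g, Dir P g ρ ∧ img g ρ = η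
  iseqv := by
    refine ⟨fun ρ => ⟨1, dir_one ρ, img_one ρ⟩, ?_, ?_⟩
    · rintro ρ _ ⟨g, hg, rfl⟩
      exact ⟨g⁻¹, dir_inv hg, img_inv_img g ρ⟩
    · rintro ρ _ _ ⟨g, hg, rfl⟩ ⟨h, hh, rfl⟩
      exact ⟨h * g, dir_mul hh hg, img_mul h g ρ⟩

/-- classes of rays -/
abbrev Comp : Type := Quotient (rsetoid P)

/-- the class of a ray -/
def cls (ρ : ℕ → X) : Comp P := Quotient.mk (rsetoid P) ρ

/-- the representative of a class -/
def rep (c : Comp P) : ℕ → X := Quotient.out c

theorem exists_con (ρ : ℕ → X) :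
    ∃ g, Dir P g (rep P (cls P ρ)) ∧ img g (rep P (cls P ρ)) = ρ :=
  Quotient.exact (Quotient.out_eq (cls P ρ))

/-- a directed automorphism from the representative to the ray -/
def con (ρ : ℕ → X) : T X := (exists_con P ρ).choose

theorem dir_con (ρ : ℕ → X) : Dir P (con P ρ) (rep P (cls P ρ)) := (exists_con P ρ).choose_spec.1

theorem img_con (ρ : ℕ → X) : img (con P ρ) (rep P (cls P ρ)) = ρ :=
  (exists_con P ρ).choose_spec.2

/-- the groups of directed elements as types -/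
def DT (c : Comp P) : Type := ↥(D P (rep P c))

instance (c : Comp P) : Group (DT P c) := inferInstanceAs (Group ↥(D P (rep P c)))

/-- directed part of the cover -/
def Gam1 : Type := Coprod (CoprodI (DT P)) (FreeGroup (ℕ → X))

instance : Group (Gam1 P) :=
  inferInstanceAs (Group (Coprod (CoprodI (DT P)) (FreeGroup (ℕ → X))))

/-- the cover -/
def Gam : Type := Coprod ↥(Fn P) (Gam1 P)

instance : Group (Gam P) := inferInstanceAs (Group (Coprod ↥(Fn P) (Gam1 P)))

/-- finitary elements -/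
def iF : Fn P →* Gam P where
  toFun f := (Coprod.inl f : Coprod ↥(Fn P) (Gam1 P))
  map_one' := (Coprod.inl : ↥(Fn P) →* Coprod ↥(Fn P) (Gam1 P)).map_one
  map_mul' := (Coprod.inl : ↥(Fn P) →* Coprod ↥(Fn P) (Gam1 P)).map_mul

/-- the directed part in the cover -/
def i1 : Gam1 P →* Gam P where
  toFun f := (Coprod.inr f : Coprod ↥(Fn P) (Gam1 P))
  map_one' := (Coprod.inr : Gam1 P →* Coprod ↥(Fn P) (Gam1 P)).map_one
  map_mul' := (Coprod.inr : Gam1 P →* Coprod ↥(Fn P) (Gam1 P)).map_mul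

/-- directed elements in the directed part -/
def jD (c : Comp P) : D P (rep P c) →* Gam1 P where
  toFun f := (Coprod.inl (CoprodI.of (M := DT P) (i := c) f) :
    Coprod (CoprodI (DT P)) (FreeGroup (ℕ → X)))
  map_one' := ((Coprod.inl : CoprodI (DT P) →* Coprod (CoprodI (DT P)) (FreeGroup (ℕ → X))).comp
    (CoprodI.of (M := DT P) (i := c))).map_one
  map_mul' := ((Coprod.inl : CoprodI (DT P) →* Coprod (CoprodI (DT P)) (FreeGroup (ℕ → X))).comp
    (CoprodI.of (M := DT P) (i := c))).map_mul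

/-- connecting elements in the directed part -/
def jT (ρ : ℕ → X) : Gam1 P :=
  (Coprod.inr (FreeGroup.of ρ) : Coprod (CoprodI (DT P)) (FreeGroup (ℕ → X)))

/-- directed elements -/
def iD (c : Comp P) : D P (rep P c) →* Gam P := (i1 P).comp (jD P c)

/-- connecting elements -/
def iT (ρ : ℕ → X) : Gam P := i1 P (jT P ρ)

section lift

variable {H : Type} [Group H] (a : Fn P →* H) (b : ∀ c : Comp P, D P (rep P c) →* H)
  (t : (ℕ → X) → H)

/-- homomorphisms on the directed part -/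
def lift1 : Gam1 P →* H :=
  let b' : ∀ c : Comp P, DT P c →* H := fun c =>
    { toFun := fun g => b c g
      map_one' := (b c).map_one
      map_mul' := (b c).map_mul }
  { toFun := fun x => Coprod.lift (CoprodI.lift b') (FreeGroup.lift t)
      (x : Coprod (CoprodI (DT P)) (FreeGroup (ℕ → X)))
    map_one' := (Coprod.lift (CoprodI.lift b') (FreeGroup.lift t)).map_one
    map_mul' := (Coprod.lift (CoprodI.lift b') (FreeGroup.lift t)).map_mul }

/-- homomorphisms on the cover -/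
def gLift : Gam P →* H where
  toFun x := Coprod.lift a (lift1 P b t) (x : Coprod ↥(Fn P) (Gam1 P))
  map_one' := (Coprod.lift a (lift1 P b t)).map_one
  map_mul' := (Coprod.lift a (lift1 P b t)).map_mul

theorem gLift_iF (f : Fn P) : gLift P a b t (iF P f) = a f :=
  Coprod.lift_apply_inl a (lift1 P b t) f

theorem gLift_i1 (x : Gam1 P) : gLift P a b t (i1 P x) = lift1 P b t x :=
  Coprod.lift_apply_inr a (lift1 P b t) x

theorem gLift_iD (c : Comp P) (g : D P (rep P c)) : gLift P a b t (iD P c g) = b c g := by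
  have h1 : gLift P a b t (iD P c g) = lift1 P b t (jD P c g) := gLift_i1 P a b t (jD P c g)
  rw [h1]
  let b' : ∀ c : Comp P, DT P c →* H := fun c =>
    { toFun := fun g => b c g
      map_one' := (b c).map_one
      map_mul' := (b c).map_mul }
  have h2 : lift1 P b t (jD P c g) = Coprod.lift (CoprodI.lift b') (FreeGroup.lift t)
    (Coprod.inl (CoprodI.of (M := DT P) (i := c) g)) := rfl
  rw [h2, Coprod.lift_apply_inl, CoprodI.lift_of]
  rfl

theorem gLift_iT (ρ : ℕ → X) : gLift P a b t (iT P ρ) = t ρ := by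
  have h1 : gLift P a b t (iT P ρ) = lift1 P b t (jT P ρ) := gLift_i1 P a b t (jT P ρ)
  rw [h1]
  let b' : ∀ c : Comp P, DT P c →* H := fun c =>
    { toFun := fun g => b c g
      map_one' := (b c).map_one
      map_mul' := (b c).map_mul }
  have h2 : lift1 P b t (jT P ρ) = Coprod.lift (CoprodI.lift b') (FreeGroup.lift t)
    (Coprod.inr (FreeGroup.of ρ)) := rfl
  rw [h2, Coprod.lift_apply_inr, FreeGroup.lift_apply_of]

end lift

theorem gam1_ind {motive : Gam1 P → Prop} (hD : ∀ c g, motive (jD P c g))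
    (hT : ∀ ρ, motive (jT P ρ)) (h1 : motive 1) (hinv : ∀ g, motive g → motive g⁻¹)
    (hmul : ∀ g h, motive g → motive h → motive (g * h)) (g : Gam1 P) : motive g := by
  change Coprod (CoprodI (DT P)) (FreeGroup (ℕ → X)) at g
  induction g using Coprod.induction_on with
  | inl m =>
    induction m using CoprodI.induction_on with
    | one => rw [map_one]; exact h1
    | of i a => exact hD i a
    | mul x y h h' => rw [map_mul]; exact hmul _ _ h h'
  | inr m =>
    induction m using FreeGroup.induction_on with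
    | C1 => rw [map_one]; exact h1
    | of x => exact hT x
    | inv_of x _ => rw [map_inv]; exact hinv _ (hT x)
    | mul x y h h' => rw [map_mul]; exact hmul _ _ h h'
  | mul x y h h' => exact hmul _ _ h h'

theorem gam_ind {motive : Gam P → Prop} (hF : ∀ f, motive (iF P f)) (hD : ∀ c g, motive (iD P c g))
    (hT : ∀ ρ, motive (iT P ρ)) (h1 : motive 1) (hinv : ∀ g, motive g → motive g⁻¹)
    (hmul : ∀ g h, motive g → motive h → motive (g * h)) (g : Gam P) : motive g := by
  have h2 : ∀ x, motive (i1 P x) := by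
    intro x
    induction x using gam1_ind with
    | hD c g => exact hD c g
    | hT ρ => exact hT ρ
    | h1 => rw [map_one]; exact h1
    | hinv g h => rw [map_inv]; exact hinv _ h
    | hmul g h h1 h2 => rw [map_mul]; exact hmul _ _ h1 h2
  change Coprod ↥(Fn P) (Gam1 P) at g
  induction g using Coprod.induction_on with
  | inl m => exact hF m
  | inr n => exact h2 n
  | mul x y h h' => exact hmul _ _ h h'

open Classical in
/-- finitary elements -/
def fF (g : T X) : Gam P := if h : g ∈ Fn P then iF P ⟨g, h⟩ else 1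

open Classical in
/-- directed elements -/
def fD (c : Comp P) (g : T X) : Gam P :=
  if h : g ∈ D P (rep P c) then iD P c ⟨g, h⟩ else 1

variable {P}

theorem fF_eq {g : T X} (h : g ∈ Fn P) : fF P g = iF P ⟨g, h⟩ := dif_pos h

theorem fD_eq {c : Comp P} {g : T X} (h : g ∈ D P (rep P c)) : fD P c g = iD P c ⟨g, h⟩ :=
  dif_pos h

theorem fF_mul {g h : T X} (hg : g ∈ Fn P) (hh : h ∈ Fn P) :
    fF P (g * h) = fF P g * fF P h := by
  rw [fF_eq hg, fF_eq hh, fF_eq (mul_mem hg hh), ← map_mul]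
  rfl

theorem fF_one : fF P 1 = 1 := by
  rw [fF_eq (one_mem _)]
  exact map_one (iF P)

theorem fD_mul {c : Comp P} {g h : T X} (hg : g ∈ D P (rep P c)) (hh : h ∈ D P (rep P c)) :
    fD P c (g * h) = fD P c g * fD P c h := by
  rw [fD_eq hg, fD_eq hh, fD_eq (mul_mem hg hh), ← map_mul]
  rfl

theorem fD_one (c : Comp P) : fD P c 1 = 1 := by
  rw [fD_eq (one_mem _)]
  exact map_one (iD P c)

theorem cls_img {g : T X} {ρ : ℕ → X} (h : Dir P g ρ) : cls P (img g ρ) = cls P ρ :=
  (Quotient.sound (s := rsetoid P) ⟨g, h, rfl⟩).symm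

variable (P) in
/-- the loop at the representative -/
def lp (g : T X) (ρ : ℕ → X) : T X := (con P (img g ρ))⁻¹ * g * con P ρ

theorem dir_coninv {g : T X} {ρ : ℕ → X} (h : Dir P g ρ) :
    Dir P (con P (img g ρ))⁻¹ (img g ρ) ∧
      img (con P (img g ρ))⁻¹ (img g ρ) = rep P (cls P ρ) := by
  have h1 := dir_con P (img g ρ)
  have h2 := img_con P (img g ρ)
  have h3 := dir_inv h1
  have h4 := img_inv_img (con P (img g ρ)) (rep P (cls P (img g ρ)))
  rw [h2] at h3 h4
  rw [cls_img h] at h4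
  exact ⟨h3, h4⟩

theorem lp_mem {g : T X} {ρ : ℕ → X} (h : Dir P g ρ) : lp P g ρ ∈ D P (rep P (cls P ρ)) := by
  have h1 := dir_con P ρ
  have h2 := img_con P ρ
  obtain ⟨h3, h4⟩ := dir_coninv h
  have h5 : Dir P (g * con P ρ) (rep P (cls P ρ)) := dir_mul (by rw [h2]; exact h) h1
  have h6 : img (g * con P ρ) (rep P (cls P ρ)) = img g ρ := by rw [img_mul, h2]
  rw [mem_D, lp, mul_assoc]
  refine ⟨dir_mul (by rw [h6]; exact h3) h5, ?_⟩
  rw [img_mul, h6, h4]

variable (P) in
/-- the element of a directed automorphism -/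
def mor (g : T X) (ρ : ℕ → X) : Gam P :=
  iT P (img g ρ) * fD P (cls P ρ) (lp P g ρ) * (iT P ρ)⁻¹

theorem mor_mul {g h : T X} {ρ : ℕ → X} (hg : Dir P g (img h ρ)) (hh : Dir P h ρ) :
    mor P (g * h) ρ = mor P g (img h ρ) * mor P h ρ := by
  have h1 : lp P (g * h) ρ = lp P g (img h ρ) * lp P h ρ := by
    rw [lp, lp, lp, img_mul]
    group
  have h2 := lp_mem hg
  rw [cls_img hh] at h2
  rw [mor, mor, mor, h1, cls_img hh, fD_mul h2 (lp_mem hh), img_mul]
  group

theorem mor_one (ρ : ℕ → X) : mor P 1 ρ = 1 := by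
  have h1 : lp P 1 ρ = 1 := by
    rw [lp, img_one]
    group
  rw [mor, h1, fD_one, img_one]
  group

theorem mor_inv {g : T X} {ρ : ℕ → X} (h : Dir P g ρ) :
    (mor P g ρ)⁻¹ = mor P g⁻¹ (img g ρ) := by
  have h1 := mor_mul (dir_inv h) h
  rw [inv_mul_cancel, mor_one] at h1
  exact inv_eq_of_mul_eq_one_left h1.symm

/-! ## the recursion -/

variable (P) in
open Classical in
/-- the recursion of a directed automorphism -/
def Rr (g : T X) (ρ : ℕ → X) : Wr X (Gam P) :=
  ⟨fun x => if x = ρ 0 then mor P (sec g (ρ 0)) (shf ρ) else fF P (sec g x), root g⟩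

theorem Rr_self (g : T X) (ρ : ℕ → X) :
    (Rr P g ρ).s (ρ 0) = mor P (sec g (ρ 0)) (shf ρ) := if_pos rfl

theorem Rr_ne (g : T X) (ρ : ℕ → X) {x : X} (h : x ≠ ρ 0) :
    (Rr P g ρ).s x = fF P (sec g x) := if_neg h

theorem Rr_p (g : T X) (ρ : ℕ → X) : (Rr P g ρ).p = root g := rfl

theorem Rr_mul {g h : T X} {ρ : ℕ → X} (hg : Dir P g (img h ρ)) (hh : Dir P h ρ) :
    Rr P (g * h) ρ = Rr P g (img h ρ) * Rr P h ρ := by
  apply Wr.ext
  · funext x
    rw [Wr.mul_s, Rr_p]
    by_cases hx : x = ρ 0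
    · rw [hx, Rr_self, Rr_self]
      have h1 : root h (ρ 0) = img h ρ 0 := rfl
      rw [h1, Rr_self, sec_mul, h1, ← img_shf]
      apply mor_mul _ (dir_shf hh)
      rw [img_shf]
      exact dir_shf hg
    · have h1 : root h x ≠ img h ρ 0 := fun h2 => hx ((root h).injective h2)
      rw [Rr_ne _ _ hx, Rr_ne _ _ hx, Rr_ne _ _ h1, sec_mul]
      exact fF_mul (dir_off hg h1) (dir_off hh hx)
  · rw [Wr.mul_p, Rr_p, Rr_p, Rr_p, root_mul]

theorem Rr_one (ρ : ℕ → X) : Rr P 1 ρ = 1 := by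
  apply Wr.ext
  · funext x
    by_cases hx : x = ρ 0
    · rw [hx, Rr_self, sec_one, mor_one]
      rfl
    · rw [Rr_ne _ _ hx, sec_one, fF_one]
      rfl
  · rw [Rr_p, root_one]
    rfl

variable (P) in
/-- the recursion on the finitary elements -/
def psF : Fn P →* Wr X (Gam P) where
  toFun f := ⟨fun x => fF P (sec f.1 x), root f.1⟩
  map_one' := by
    apply Wr.ext
    · funext x
      change fF P (sec 1 x) = 1
      rw [sec_one, fF_one]
    · exact root_one
  map_mul' f g := by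
    apply Wr.ext
    · funext x
      change fF P (sec (f.1 * g.1) x) = fF P (sec f.1 (root g.1 x)) * fF P (sec g.1 x)
      rw [sec_mul, fF_mul (Fn_sec f.2 _) (Fn_sec g.2 _)]
    · exact root_mul f.1 g.1

variable (P) in
/-- the recursion on the directed elements -/
def psD (c : Comp P) : D P (rep P c) →* Wr X (Gam P) where
  toFun g := Rr P g.1 (rep P c)
  map_one' := Rr_one _
  map_mul' g h := by
    have h1 := Rr_mul (P := P) (g := g.1) (h := h.1) (ρ := rep P c)
      (by rw [h.2.2]; exact g.2.1) h.2.1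
    rw [h.2.2] at h1
    exact h1

variable (P) in
/-- the recursion of the cover -/
def psi : Gam P →* Wr X (Gam P) :=
  gLift P (psF P) (psD P) fun ρ => Rr P (con P ρ) (rep P (cls P ρ))

theorem psi_iF (f : Fn P) : psi P (iF P f) = psF P f := gLift_iF P _ _ _ f

theorem psi_iD (c : Comp P) (g : D P (rep P c)) : psi P (iD P c g) = psD P c g :=
  gLift_iD P _ _ _ c g

theorem psi_iT (ρ : ℕ → X) : psi P (iT P ρ) = Rr P (con P ρ) (rep P (cls P ρ)) :=
  gLift_iT P _ _ _ ρ

theorem psi_fF_s {f : T X} (hf : f ∈ Fn P) (x : X) : (psi P (fF P f)).s x = fF P (sec f x) := by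
  rw [fF_eq hf, psi_iF]
  rfl

theorem psi_fF_p {f : T X} (hf : f ∈ Fn P) : (psi P (fF P f)).p = root f := by
  rw [fF_eq hf, psi_iF]
  rfl

theorem psi_mor {g : T X} {ρ : ℕ → X} (hg : Dir P g ρ) : psi P (mor P g ρ) = Rr P g ρ := by
  have hc : cls P (img g ρ) = cls P ρ := cls_img hg
  have h1 := dir_con P ρ
  have h2 := img_con P ρ
  have h3 := dir_con P (img g ρ)
  have h4 := img_con P (img g ρ)
  rw [hc] at h3 h4
  have h5 := lp_mem hg
  rw [mor, map_mul, map_mul, map_inv, psi_iT, psi_iT, fD_eq h5, psi_iD, hc]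
  change Rr P (con P (img g ρ)) (rep P (cls P ρ)) * Rr P (lp P g ρ) (rep P (cls P ρ)) *
    (Rr P (con P ρ) (rep P (cls P ρ)))⁻¹ = Rr P g ρ
  rw [mul_inv_eq_iff_eq_mul]
  have h6 := Rr_mul (P := P) (g := con P (img g ρ)) (h := lp P g ρ) (ρ := rep P (cls P ρ))
    (by rw [h5.2]; exact h3) h5.1
  rw [h5.2] at h6
  rw [← h6]
  have h7 := Rr_mul (P := P) (g := g) (h := con P ρ) (ρ := rep P (cls P ρ))
    (by rw [h2]; exact hg) h1
  rw [h2] at h7
  rw [← h7]
  congr 1
  rw [lp]
  group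

theorem Rr_mem {g : T X} {ρ : ℕ → X} (hg : g ∈ FP P) : Rr P g ρ ∈ RW P (Gam P) := by
  have h1 := (mem_FP_iff.1 hg).1
  refine ⟨h1.1, ((Set.finite_singleton (mor P (sec g (ρ 0)) (shf ρ))).union
    (h1.2.image (fF P))).subset ?_⟩
  rintro _ ⟨x, rfl⟩
  by_cases hx : x = ρ 0
  · rw [hx, Rr_self]
    exact Or.inl rfl
  · rw [Rr_ne _ _ hx]
    exact Or.inr ⟨_, ⟨x, rfl⟩, rfl⟩

theorem psi_mem (γ : Gam P) : psi P γ ∈ RW P (Gam P) := by
  induction γ using gam_ind with
  | hF f =>
    rw [psi_iF]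
    have h1 := (mem_FP_iff.1 f.2.1).1
    exact ⟨h1.1, finite_range_of h1.2 _ (fF P) fun x => rfl⟩
  | hD c g => rw [psi_iD]; exact Rr_mem g.2.1.mem
  | hT ρ => rw [psi_iT]; exact Rr_mem (dir_con P ρ).mem
  | h1 => rw [map_one]; exact one_mem _
  | hinv g h => rw [map_inv]; exact inv_mem h
  | hmul g h h1 h2 => rw [map_mul]; exact mul_mem h1 h2

/-! ## the action on the tree -/

theorem act_letters (w : List X) : (∀ f ∈ Fn P, act (psi P) (fF P f) w = f.1 w) ∧
    ∀ g ρ, Dir P g ρ → act (psi P) (mor P g ρ) w = g.1 w := by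
  induction w with
  | nil => exact ⟨fun f _ => by rw [act_nil, nil_eq], fun g ρ _ => by rw [act_nil, nil_eq]⟩
  | cons x w ih =>
    refine ⟨fun f hf => ?_, fun g ρ hg => ?_⟩
    · rw [act_cons, cons_eq, psi_fF_s hf, psi_fF_p hf, ih.1 _ (Fn_sec hf x)]
    · rw [act_cons, cons_eq, psi_mor hg, Rr_p]
      by_cases hx : x = ρ 0
      · rw [hx, Rr_self, ih.2 _ _ (dir_shf hg)]
      · rw [Rr_ne _ _ hx, ih.1 _ (dir_off hg hx)]

theorem tau_fF {f : T X} (hf : f ∈ Fn P) : tau (psi P) (fF P f) = f := by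
  apply Subtype.ext
  apply Equiv.ext
  exact fun w => (act_letters w).1 f hf

theorem tau_mor {g : T X} {ρ : ℕ → X} (hg : Dir P g ρ) : tau (psi P) (mor P g ρ) = g := by
  apply Subtype.ext
  apply Equiv.ext
  exact fun w => (act_letters w).2 g ρ hg

variable (P) in
/-- the finitary and the directed elements of the cover -/
def Nn : Set (Gam P) := {γ | (∃ f ∈ Fn P, γ = fF P f) ∨ ∃ g ρ, Dir P g ρ ∧ γ = mor P g ρ}

theorem one_mem_Nn : (1 : Gam P) ∈ Nn P := Or.inl ⟨1, one_mem _, fF_one.symm⟩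

theorem Nn_sec {γ : Gam P} (h : γ ∈ Nn P) (x : X) : (psi P γ).s x ∈ Nn P := by
  rcases h with ⟨f, hf, rfl⟩ | ⟨g, ρ, hg, rfl⟩
  · exact Or.inl ⟨_, Fn_sec hf x, psi_fF_s hf x⟩
  · rw [psi_mor hg]
    by_cases hx : x = ρ 0
    · exact Or.inr ⟨_, _, dir_shf hg, by rw [hx, Rr_self]⟩
    · exact Or.inl ⟨_, dir_off hg hx, Rr_ne _ _ hx⟩

theorem Nn_det {γ : Gam P} (h : γ ∈ Nn P) (h1 : tau (psi P) γ = 1) : γ = 1 := by
  rcases h with ⟨f, hf, rfl⟩ | ⟨g, ρ, hg, rfl⟩
  · rw [tau_fF hf] at h1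
    rw [h1, fF_one]
  · rw [tau_mor hg] at h1
    rw [h1, mor_one]

end

end Pool.Agent.X265.Inf
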