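import Pool.Agent.X265.Ctr.Nuc

/-!
# Finitary and directed automorphisms of trees over infinite alphabets
-/

set_option autoImplicit false

namespace Pool.Agent.X265.Inf

open Pool.Agent.Y462.SS Pool.Agent.Y110.FJ Pool.Agent.X176.FJ Pool.Agent.Y331.SS
open Pool.Agent.X265.Ctr

variable {X : Type}

/-! ## finitary automorphisms -/

/-- the finitary automorphisms with vertex permutations in `P` and finitely many different
sections -/
def Fn (P : Subgroup (Equiv.Perm X)) : Subgroup (T X) where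
  carrier := {g | g ∈ FP P ∧ ∃ n, g ∈ Lv (⊥ : Subgroup (T X)) n}
  one_mem' := ⟨one_mem _, 0, one_mem _⟩
  mul_mem' := by
    rintro a b ⟨ha, m, hm⟩ ⟨hb, n, hn⟩
    have hmono : Monotone (Lv (⊥ : Subgroup (T X))) := by
      apply monotone_nat_of_le_succ
      intro k
      apply Lv_le_succ
      intro g hg x
      rw [Subgroup.mem_bot] at hg ⊢
      rw [hg, sec_one]
    exact ⟨mul_mem ha hb, max m n, mul_mem (hmono (le_max_left m n) hm)
      (hmono (le_max_right m n) hn)⟩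
  inv_mem' := by
    rintro a ⟨ha, m, hm⟩
    exact ⟨inv_mem ha, m, inv_mem hm⟩

theorem bot_mono : Monotone (Lv (⊥ : Subgroup (T X))) := by
  apply monotone_nat_of_le_succ
  intro k
  apply Lv_le_succ
  intro g hg x
  rw [Subgroup.mem_bot] at hg ⊢
  rw [hg, sec_one]

theorem sec_mem_bot {g : T X} {n : ℕ} (h : g ∈ Lv (⊥ : Subgroup (T X)) n) (x : X) :
    sec g x ∈ Lv (⊥ : Subgroup (T X)) n := bot_mono (Nat.le_succ n) h x

theorem Fn_sec {P : Subgroup (Equiv.Perm X)} {g : T X} (h : g ∈ Fn P) (x : X) :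
    sec g x ∈ Fn P := by
  obtain ⟨h1, n, hn⟩ := h
  exact ⟨FP_sec h1 x, n, sec_mem_bot hn x⟩

theorem c_Fn {C : ∀ (G : Type) [Group G], Prop} (hC : ClosedE C) {P : Subgroup (Equiv.Perm X)}
    (hP : C P) : C (Fn P) := by
  let K : ℕ → Subgroup (Fn P) := fun n => (Lv (⊥ : Subgroup (T X)) n ⊓ FP P).comap (Fn P).subtype
  refine Pool.Agent.Y430.SS.t_union C hC.base (Fn P) K ?_ ?_ ?_
  · intro m n h g hg
    exact ⟨bot_mono h hg.1, hg.2⟩
  · rintro ⟨g, h1, n, hn⟩
    exact ⟨n, hn, h1⟩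
  · intro n
    let φ : K n →* (Lv (⊥ : Subgroup (T X)) n ⊓ FP P : Subgroup (T X)) :=
      { toFun := fun g => ⟨g.1.1, g.2⟩
        map_one' := rfl
        map_mul' := fun a b => rfl }
    refine hC.base.of_injective _ _ φ ?_
      (Lv_closed' hC hP ⊥ (Pool.Agent.Y812.SS.C_finite hC.base _) n)
    intro a b hab
    have h0 : (φ a).1 = (φ b).1 := congrArg Subtype.val hab
    have h1 : a.1.1 = b.1.1 := h0
    exact Subtype.ext (Subtype.ext h1)

/-! ## steps with finitary sections -/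

/-- elements of the wreath product with finitary sections -/
def WF (P : Subgroup (Equiv.Perm X)) : Subgroup (Wr X (T X)) where
  carrier := {w | w ∈ RW P (T X) ∧ ∀ x, w.s x ∈ Fn P}
  one_mem' := ⟨one_mem _, fun x => one_mem _⟩
  mul_mem' := by
    rintro a b ⟨ha, ha'⟩ ⟨hb, hb'⟩
    exact ⟨mul_mem ha hb, fun x => mul_mem (ha' _) (hb' _)⟩
  inv_mem' := by
    rintro a ⟨ha, ha'⟩
    exact ⟨inv_mem ha, fun x => inv_mem (ha' _)⟩

theorem c_WF {C : ∀ (G : Type) [Group G], Prop} (hC : ClosedE C) {P : Subgroup (Equiv.Perm X)}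
    (hP : C P) : C (WF P) := by
  let f : WF P →* RW P (Fn P) :=
    { toFun := fun w => ⟨⟨fun x => ⟨w.1.s x, w.2.2 x⟩, w.1.p⟩, w.2.1.1,
        Set.Finite.of_finite_image (f := Subtype.val) (w.2.1.2.subset (by
          rintro _ ⟨_, ⟨x, rfl⟩, rfl⟩
          exact ⟨x, rfl⟩)) Subtype.val_injective.injOn⟩
      map_one' := rfl
      map_mul' := fun a b => rfl }
  refine hC.base.of_injective _ _ f ?_ (c_RW hC hP (c_Fn hC hP))
  intro a b hab
  have h1 : (f a).1 = (f b).1 := congrArg Subtype.val hab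
  have h0 : (f a).1.p = (f b).1.p := congrArg Wr.p h1
  have h2 : a.1.p = b.1.p := h0
  apply Subtype.ext
  apply Wr.ext
  · funext x
    exact congrArg Subtype.val (congrFun (congrArg Wr.s h1) x)
  · exact h2

/-! ## functions with finitely many values -/

/-- functions with finitely many values -/
def Fv (H : Type) [Group H] : Subgroup (ℕ → H) where
  carrier := {a | (Set.range a).Finite}
  one_mem' := (Set.finite_singleton (1 : H)).subset (by rintro _ ⟨n, rfl⟩; rfl)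
  mul_mem' := by
    intro a b ha hb
    refine ((ha.prod hb).image fun p : H × H => p.1 * p.2).subset ?_
    rintro _ ⟨n, rfl⟩
    exact ⟨(a n, b n), ⟨⟨n, rfl⟩, ⟨n, rfl⟩⟩, rfl⟩
  inv_mem' := by
    intro a ha
    refine (ha.image fun h : H => h⁻¹).subset ?_
    rintro _ ⟨n, rfl⟩
    exact ⟨a n, ⟨n, rfl⟩, rfl⟩

theorem c_Fv {C : ∀ (G : Type) [Group G], Prop} (hC : Closed C) {H : Type} [Group H] (hH : C H) :
    C (Fv H) := by
  apply c_loc hC
  intro E hE
  -- the values of all elements of `E`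
  have hEf : Finite E := hE
  let Φ : ℕ → (E → H) := fun n b => (b : Fv H).1 n
  have hΦ : (Set.range Φ).Finite := by
    have h1 : (Set.pi Set.univ fun b : E => Set.range ((b : Fv H).1)).Finite :=
      Set.Finite.pi fun b => (b : Fv H).2
    refine h1.subset ?_
    rintro _ ⟨n, rfl⟩ b _
    exact ⟨n, rfl⟩
  have hfin : Finite (Set.range Φ) := hΦ
  let r : Set.range Φ → ℕ := fun y => y.2.choose
  have hr : ∀ y : Set.range Φ, Φ (r y) = y := fun y => y.2.choose_spec
  have hcl : ∀ b ∈ Subgroup.closure E, ∀ m n, Φ m = Φ n → (b : ℕ → H) m = (b : ℕ → H) n := by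
    intro b hb
    induction hb using Subgroup.closure_induction with
    | mem b hb => exact fun m n h => congrFun h ⟨b, hb⟩
    | one => exact fun m n _ => rfl
    | mul a b _ _ ha hb =>
      intro m n h
      change (a : ℕ → H) m * (b : ℕ → H) m = (a : ℕ → H) n * (b : ℕ → H) n
      rw [ha m n h, hb m n h]
    | inv a _ ha =>
      intro m n h
      change ((a : ℕ → H) m)⁻¹ = ((a : ℕ → H) n)⁻¹
      rw [ha m n h]
  let f : Subgroup.closure E →* (Set.range Φ → H) :=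
    { toFun := fun b y => (b : Fv H).1 (r y)
      map_one' := rfl
      map_mul' := fun a b => rfl }
  refine hC.of_injective _ _ f ?_ (Pool.Agent.Y812.SS.C_pow hC _ _ hH)
  intro a b hab
  apply Subtype.ext
  apply Subtype.ext
  funext n
  have h1 : (a : Fv H).1 (r ⟨Φ n, n, rfl⟩) = (b : Fv H).1 (r ⟨Φ n, n, rfl⟩) :=
    congrFun hab ⟨Φ n, n, rfl⟩
  rw [hcl a a.2 n (r ⟨Φ n, n, rfl⟩) (hr ⟨Φ n, n, rfl⟩).symm,
    hcl b b.2 n (r ⟨Φ n, n, rfl⟩) (hr ⟨Φ n, n, rfl⟩).symm]
  exact h1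

/-! ## rays -/

/-- shift of a ray -/
def shf (ρ : ℕ → X) : ℕ → X := fun n => ρ (n + 1)

/-- the sections along a ray -/
def rs (g : T X) (ρ : ℕ → X) : ℕ → T X
  | 0 => g
  | n + 1 => sec (rs g ρ n) (ρ n)

/-- the image of a ray -/
def img (g : T X) (ρ : ℕ → X) : ℕ → X := fun n => root (rs g ρ n) (ρ n)

open Classical in
/-- the steps along a ray -/
noncomputable def st (g : T X) (ρ : ℕ → X) (n : ℕ) : Wr X (T X) :=
  ⟨fun x => if x = ρ n then 1 else sec (rs g ρ n) x, root (rs g ρ n)⟩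

theorem st_s_self (g : T X) (ρ : ℕ → X) (n : ℕ) : (st g ρ n).s (ρ n) = 1 := if_pos rfl

theorem st_s_ne (g : T X) (ρ : ℕ → X) (n : ℕ) {x : X} (h : x ≠ ρ n) :
    (st g ρ n).s x = sec (rs g ρ n) x := if_neg h

theorem st_p (g : T X) (ρ : ℕ → X) (n : ℕ) : (st g ρ n).p = root (rs g ρ n) := rfl

theorem rs_zero (g : T X) (ρ : ℕ → X) : rs g ρ 0 = g := rfl

theorem rs_succ (g : T X) (ρ : ℕ → X) (n : ℕ) : rs g ρ (n + 1) = sec (rs g ρ n) (ρ n) := rfl

theorem rs_one (ρ : ℕ → X) (n : ℕ) : rs (1 : T X) ρ n = 1 := by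
  induction n with
  | zero => rfl
  | succ n ih => rw [rs_succ, ih, sec_one]

theorem img_one (ρ : ℕ → X) : img (1 : T X) ρ = ρ := by
  funext n
  change root (rs 1 ρ n) (ρ n) = ρ n
  rw [rs_one, root_one]
  rfl

theorem st_one (ρ : ℕ → X) (n : ℕ) : st (1 : T X) ρ n = 1 := by
  apply Wr.ext
  · funext x
    by_cases hx : x = ρ n
    · rw [hx, st_s_self]
      rfl
    · rw [st_s_ne _ _ _ hx, rs_one, sec_one]
      rfl
  · rw [st_p, rs_one, root_one]
    rfl

theorem rs_mul (g h : T X) (ρ : ℕ → X) (n : ℕ) :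
    rs (g * h) ρ n = rs g (img h ρ) n * rs h ρ n := by
  induction n with
  | zero => rfl
  | succ n ih =>
    rw [rs_succ, ih, sec_mul, rs_succ, rs_succ]
    rfl

theorem img_mul (g h : T X) (ρ : ℕ → X) : img (g * h) ρ = img g (img h ρ) := by
  funext n
  change root (rs (g * h) ρ n) (ρ n) = root (rs g (img h ρ) n) (root (rs h ρ n) (ρ n))
  rw [rs_mul, root_mul]
  rfl

theorem st_mul (g h : T X) (ρ : ℕ → X) (n : ℕ) :
    st (g * h) ρ n = st g (img h ρ) n * st h ρ n := by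
  apply Wr.ext
  · funext x
    rw [Wr.mul_s, st_p]
    by_cases hx : x = ρ n
    · rw [hx, st_s_self, st_s_self, mul_one]
      exact (st_s_self g (img h ρ) n).symm
    · have h1 : root (rs h ρ n) x ≠ img h ρ n := fun h2 =>
        hx ((root (rs h ρ n)).injective h2)
      rw [st_s_ne _ _ _ hx, st_s_ne _ _ _ hx, st_s_ne _ _ _ h1, rs_mul, sec_mul]
  · rw [Wr.mul_p, st_p, st_p, st_p, rs_mul, root_mul]

theorem img_inv_img (g : T X) (ρ : ℕ → X) : img g⁻¹ (img g ρ) = ρ := by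
  rw [← img_mul, inv_mul_cancel, img_one]

theorem st_inv (g : T X) (ρ : ℕ → X) (n : ℕ) : st g⁻¹ (img g ρ) n = (st g ρ n)⁻¹ := by
  rw [eq_inv_iff_mul_eq_one, ← st_mul, inv_mul_cancel, st_one]

theorem rs_shf (g : T X) (ρ : ℕ → X) (n : ℕ) :
    rs (sec g (ρ 0)) (shf ρ) n = rs g ρ (n + 1) := by
  induction n with
  | zero => rfl
  | succ n ih => rw [rs_succ, ih]; rfl

theorem img_shf (g : T X) (ρ : ℕ → X) : img (sec g (ρ 0)) (shf ρ) = shf (img g ρ) := by
  funext n
  change root (rs (sec g (ρ 0)) (shf ρ) n) (ρ (n + 1)) = root (rs g ρ (n + 1)) (ρ (n + 1))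
  rw [rs_shf]

theorem st_shf (g : T X) (ρ : ℕ → X) (n : ℕ) :
    st (sec g (ρ 0)) (shf ρ) n = st g ρ (n + 1) := by
  apply Wr.ext
  · funext x
    by_cases hx : x = ρ (n + 1)
    · rw [hx, st_s_self]
      exact st_s_self (sec g (ρ 0)) (shf ρ) n
    · rw [st_s_ne _ _ _ hx, st_s_ne (sec g (ρ 0)) (shf ρ) n hx, rs_shf]
  · rw [st_p, st_p, rs_shf]

/-- `g` is directed along the ray `ρ`: off the ray it is finitary, with finitely many different
steps -/
structure Dir (P : Subgroup (Equiv.Perm X)) (g : T X) (ρ : ℕ → X) : Prop where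
  mem : g ∈ FP P
  step : ∀ n, st g ρ n ∈ WF P
  fin : (Set.range (st g ρ)).Finite

variable {P : Subgroup (Equiv.Perm X)}

theorem dir_one (ρ : ℕ → X) : Dir P 1 ρ := by
  refine ⟨one_mem _, fun n => by rw [st_one]; exact one_mem _, ?_⟩
  refine (Set.finite_singleton (1 : Wr X (T X))).subset ?_
  rintro _ ⟨n, rfl⟩
  exact st_one ρ n

theorem dir_mul {g h : T X} {ρ : ℕ → X} (hg : Dir P g (img h ρ)) (hh : Dir P h ρ) :
    Dir P (g * h) ρ := by
  refine ⟨mul_mem hg.mem hh.mem, fun n => by rw [st_mul]; exact mul_mem (hg.step n) (hh.step n),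
    ?_⟩
  refine ((hg.fin.prod hh.fin).image fun p : Wr X (T X) × Wr X (T X) => p.1 * p.2).subset ?_
  rintro _ ⟨n, rfl⟩
  exact ⟨(st g (img h ρ) n, st h ρ n), ⟨⟨n, rfl⟩, ⟨n, rfl⟩⟩, (st_mul g h ρ n).symm⟩

theorem dir_inv {g : T X} {ρ : ℕ → X} (hg : Dir P g ρ) : Dir P g⁻¹ (img g ρ) := by
  refine ⟨inv_mem hg.mem, fun n => by rw [st_inv]; exact inv_mem (hg.step n), ?_⟩
  refine (hg.fin.image fun w : Wr X (T X) => w⁻¹).subset ?_
  rintro _ ⟨n, rfl⟩
  exact ⟨st g ρ n, ⟨n, rfl⟩, (st_inv g ρ n).symm⟩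

theorem dir_shf {g : T X} {ρ : ℕ → X} (hg : Dir P g ρ) : Dir P (sec g (ρ 0)) (shf ρ) := by
  refine ⟨FP_sec hg.mem _, fun n => by rw [st_shf]; exact hg.step _, hg.fin.subset ?_⟩
  rintro _ ⟨n, rfl⟩
  exact ⟨n + 1, (st_shf g ρ n).symm⟩

theorem dir_off {g : T X} {ρ : ℕ → X} (hg : Dir P g ρ) {x : X} (hx : x ≠ ρ 0) :
    sec g x ∈ Fn P := by
  have h1 := (hg.step 0).2 x
  rwa [st_s_ne _ _ _ hx] at h1

/-- an automorphism is determined by its steps along a ray -/
theorem eq_of_st {g h : T X} {ρ : ℕ → X} (hst : ∀ n, st g ρ n = st h ρ n) : g = h := by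
  have h1 : ∀ (w : List X) (g h : T X) (ρ : ℕ → X), (∀ n, st g ρ n = st h ρ n) →
      g.1 w = h.1 w := by
    intro w
    induction w with
    | nil => intro g h ρ _; rw [nil_eq, nil_eq]
    | cons x w ih =>
      intro g h ρ hst
      have h0 : root g = root h := congrArg Wr.p (hst 0)
      rw [cons_eq, cons_eq, h0]
      congr 1
      by_cases hx : x = ρ 0
      · rw [hx]
        apply ih _ _ (shf ρ)
        intro n
        rw [st_shf, st_shf]
        exact hst (n + 1)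
      · have h2 := congrFun (congrArg Wr.s (hst 0)) x
        rw [st_s_ne _ _ _ hx, st_s_ne _ _ _ hx] at h2
        have h3 : sec g x = sec h x := h2
        rw [h3]
  apply Subtype.ext
  apply Equiv.ext
  intro w
  exact h1 w g h ρ hst

/-- the group of the automorphisms directed along `ρ` which fix `ρ` -/
def D (P : Subgroup (Equiv.Perm X)) (ρ : ℕ → X) : Subgroup (T X) where
  carrier := {g | Dir P g ρ ∧ img g ρ = ρ}
  one_mem' := ⟨dir_one ρ, img_one ρ⟩
  mul_mem' := by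
    rintro g h ⟨hg, hg'⟩ ⟨hh, hh'⟩
    exact ⟨dir_mul (by rw [hh']; exact hg) hh, by rw [img_mul, hh', hg']⟩
  inv_mem' := by
    rintro g ⟨hg, hg'⟩
    have h1 := dir_inv hg
    have h2 := img_inv_img g ρ
    rw [hg'] at h1 h2
    exact ⟨h1, h2⟩

theorem mem_D {g : T X} {ρ : ℕ → X} : g ∈ D P ρ ↔ Dir P g ρ ∧ img g ρ = ρ := Iff.rfl

theorem c_D {C : ∀ (G : Type) [Group G], Prop} (hC : ClosedE C) (hP : C P) (ρ : ℕ → X) :
    C (D P ρ) := by
  let f : D P ρ →* Fv (WF P) :=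
    { toFun := fun g => ⟨fun n => ⟨st g.1 ρ n, g.2.1.step n⟩, by
        have h1 : (Subtype.val '' (Set.range fun n => (⟨st g.1 ρ n, g.2.1.step n⟩ : WF P))) ⊆
            Set.range (st g.1 ρ) := by
          rintro _ ⟨_, ⟨n, rfl⟩, rfl⟩
          exact ⟨n, rfl⟩
        exact Set.Finite.of_finite_image (g.2.1.fin.subset h1) Subtype.val_injective.injOn⟩
      map_one' := by
        apply Subtype.ext
        funext n
        exact Subtype.ext (st_one ρ n)
      map_mul' := by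
        intro g h
        apply Subtype.ext
        funext n
        apply Subtype.ext
        change st (g.1 * h.1) ρ n = st g.1 ρ n * st h.1 ρ n
        rw [st_mul, h.2.2] }
  refine hC.base.of_injective _ _ f ?_ (c_Fv hC.base (c_WF hC hP))
  intro g h hgh
  apply Subtype.ext
  apply eq_of_st (ρ := ρ)
  intro n
  exact congrArg Subtype.val (congrFun (congrArg Subtype.val hgh) n)

end Pool.Agent.X265.Inf
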