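import Pool.Agent.X265.Inf.Cover

/-!
# The cover is contracting
-/

set_option autoImplicit false

namespace Pool.Agent.X265.Inf

open Pool.Agent.Y462.SS Pool.Agent.Y110.FJ Pool.Agent.X176.FJ Pool.Agent.Y331.SS
open Pool.Agent.X265.Ctr

noncomputable section

variable {X : Type} (P : Subgroup (Equiv.Perm X))

/-- letters: finitary and directed elements -/
inductive Lt : Type
  | F (f : T X) (hf : f ∈ Fn P) : Lt
  | M (g : T X) (ρ : ℕ → X) (h : Dir P g ρ) : Lt

variable {P}

/-- the element of the cover -/
def Lt.val : Lt P → Gam P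
  | .F f _ => fF P f
  | .M g ρ _ => mor P g ρ

open Classical in
/-- the section of a letter -/
def Lt.sc : Lt P → X → Lt P
  | .F f hf, x => .F (sec f x) (Fn_sec hf x)
  | .M g ρ h, x => if hx : x = ρ 0 then .M (sec g (ρ 0)) (shf ρ) (dir_shf h)
      else .F (sec g x) (dir_off h hx)

/-- the permutation of a letter -/
def Lt.rt : Lt P → Equiv.Perm X
  | .F f _ => root f
  | .M g _ _ => root g

theorem Lt.sc_val (l : Lt P) (x : X) : (psi P l.val).s x = (l.sc x).val := by
  cases l with
  | F f hf => exact psi_fF_s hf x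
  | M g ρ h =>
    change (psi P (mor P g ρ)).s x = _
    rw [psi_mor h]
    by_cases hx : x = ρ 0
    · rw [Lt.sc, dif_pos hx, hx, Rr_self]
      rfl
    · rw [Lt.sc, dif_neg hx, Rr_ne _ _ hx]
      rfl

theorem Lt.rt_val (l : Lt P) : (psi P l.val).p = l.rt := by
  cases l with
  | F f hf => exact psi_fF_p hf
  | M g ρ h =>
    change (psi P (mor P g ρ)).p = _
    rw [psi_mor h]
    rfl

/-- the element of a word -/
def ev : List (Lt P) → Gam P
  | [] => 1
  | l :: w => l.val * ev w

/-- the permutation of a word -/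
def wp : List (Lt P) → Equiv.Perm X
  | [] => 1
  | l :: w => l.rt * wp w

/-- the section of a word -/
def ws : List (Lt P) → X → List (Lt P)
  | [], _ => []
  | l :: w, x => l.sc (wp w x) :: ws w x

theorem ev_p (w : List (Lt P)) : (psi P (ev w)).p = wp w := by
  induction w with
  | nil => rw [ev, map_one]; rfl
  | cons l w ih => rw [ev, map_mul, Wr.mul_p, ih, l.rt_val]; rfl

theorem ev_s (w : List (Lt P)) (x : X) : (psi P (ev w)).s x = ev (ws w x) := by
  induction w with
  | nil => rw [ev, map_one]; rfl
  | cons l w ih =>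
    rw [ev, map_mul, Wr.mul_s, ih, ev_p, l.sc_val]
    rfl

/-- the number of directed letters -/
def nM : List (Lt P) → ℕ
  | [] => 0
  | .F _ _ :: w => nM w
  | .M _ _ _ :: w => nM w + 1

theorem nM_F (f : T X) (hf : f ∈ Fn P) (w : List (Lt P)) : nM (.F f hf :: w) = nM w := rfl

theorem nM_M (g : T X) (ρ : ℕ → X) (h : Dir P g ρ) (w : List (Lt P)) :
    nM (.M g ρ h :: w) = nM w + 1 := rfl

theorem nM_cons_le (l : Lt P) (w : List (Lt P)) : nM w ≤ nM (l :: w) := by
  cases l with
  | F f hf => exact le_rfl
  | M g ρ h => exact Nat.le_succ _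

theorem sc_pos {g : T X} {ρ : ℕ → X} (h : Dir P g ρ) :
    (Lt.M g ρ h).sc (ρ 0) = .M (sec g (ρ 0)) (shf ρ) (dir_shf h) := by
  rw [Lt.sc, dif_pos rfl]

theorem sc_neg {g : T X} {ρ : ℕ → X} (h : Dir P g ρ) {x : X} (hx : x ≠ ρ 0) :
    (Lt.M g ρ h).sc x = .F (sec g x) (dir_off h hx) := by
  rw [Lt.sc, dif_neg hx]

theorem nM_ws_le (w : List (Lt P)) (x : X) : nM (ws w x) ≤ nM w := by
  induction w with
  | nil => exact le_rfl
  | cons l w ih =>
    cases l with
    | F f hf => exact ih
    | M g ρ h =>
      rw [ws]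
      by_cases hx : wp w x = ρ 0
      · rw [hx, sc_pos, nM_M, nM_M]
        omega
      · rw [sc_neg h hx, nM_F, nM_M]
        omega

/-- the finitary letters have depth at most `k` -/
def dep (k : ℕ) : List (Lt P) → Prop
  | [] => True
  | .F f _ :: w => f ∈ Lv (⊥ : Subgroup (T X)) k ∧ dep k w
  | .M _ _ _ :: w => dep k w

theorem dep_mono {j k : ℕ} (h : j ≤ k) (w : List (Lt P)) (hw : dep j w) : dep k w := by
  induction w with
  | nil => trivial
  | cons l w ih =>
    cases l with
    | F f hf => exact ⟨bot_mono h hw.1, ih hw.2⟩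
    | M g ρ h => exact ih hw

theorem exists_dep (w : List (Lt P)) : ∃ k, dep k w := by
  induction w with
  | nil => exact ⟨0, trivial⟩
  | cons l w ih =>
    obtain ⟨k, hk⟩ := ih
    cases l with
    | F f hf =>
      obtain ⟨_, n, hn⟩ := hf
      exact ⟨max n k, bot_mono (le_max_left n k) hn, dep_mono (le_max_right n k) w hk⟩
    | M g ρ h => exact ⟨k, hk⟩

theorem dep_ws (k : ℕ) (w : List (Lt P)) (x : X) (hw : dep (k + 1) w)
    (hn : nM (ws w x) = nM w) : dep k (ws w x) := by
  induction w with
  | nil => trivial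
  | cons l w ih =>
    cases l with
    | F f hf => exact ⟨hw.1 _, ih hw.2 hn⟩
    | M g ρ h =>
      rw [ws] at hn ⊢
      by_cases hx : wp w x = ρ 0
      · rw [hx, sc_pos, nM_M, nM_M] at hn
        rw [hx, sc_pos]
        exact ih hw (by omega)
      · rw [sc_neg h hx, nM_F, nM_M] at hn
        have h1 := nM_ws_le w x
        omega

theorem length_ws (w : List (Lt P)) (x : X) : (ws w x).length = w.length := by
  induction w with
  | nil => rfl
  | cons l w ih => rw [ws, List.length_cons, List.length_cons, ih]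

theorem nM_le_length (w : List (Lt P)) : nM w ≤ w.length := by
  induction w with
  | nil => exact le_rfl
  | cons l w ih =>
    cases l with
    | F f hf => rw [nM_F, List.length_cons]; omega
    | M g ρ h => rw [nM_M, List.length_cons]; omega

/-- remove trivial finitary letters -/
theorem exists_pure (w : List (Lt P)) (hw : dep 0 w) :
    ∃ u : List (Lt P), nM u = u.length ∧ nM u = nM w ∧ ev u = ev w := by
  induction w with
  | nil => exact ⟨[], rfl, rfl, rfl⟩
  | cons l w ih =>
    cases l with
    | F f hf =>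
      obtain ⟨u, h1, h2, h3⟩ := ih hw.2
      refine ⟨u, h1, h2, ?_⟩
      have h4 : f = 1 := Subgroup.mem_bot.1 hw.1
      rw [h3, ev]
      change ev w = fF P f * ev w
      rw [h4, fF_one, one_mul]
    | M g ρ h =>
      obtain ⟨u, h1, h2, h3⟩ := ih hw
      refine ⟨.M g ρ h :: u, ?_, ?_, ?_⟩
      · rw [nM_M, h1, List.length_cons]
      · rw [nM_M, nM_M, h2]
      · rw [ev, ev, h3]

theorem ev_noM (w : List (Lt P)) (hw : nM w = 0) : ∃ f ∈ Fn P, ev w = fF P f := by
  induction w with
  | nil => exact ⟨1, one_mem _, fF_one.symm⟩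
  | cons l w ih =>
    cases l with
    | F f hf =>
      obtain ⟨f', hf', h⟩ := ih hw
      exact ⟨f * f', mul_mem hf hf', by rw [ev, h, fF_mul hf hf']; rfl⟩
    | M g ρ h => exact absurd hw (by rw [nM_M]; omega)

/-- the main property -/
abbrev EE (γ : Gam P) : Prop := EN (psi P) (Nn P) γ

theorem EE_of_sections {γ : Gam P} (h : ∀ x, EE ((psi P γ).s x)) : EE γ :=
  EN_of_sections (psi P) psi_mem (fun _ ha x => Nn_sec ha x) γ h

/-- pure words with a junction which is not composable -/
theorem en_junction (m : ℕ) (IH : ∀ w : List (Lt P), nM w < m → EE (ev w)) (l : ℕ) :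
    ∀ (g : T X) (ρ : ℕ → X) (hg : Dir P g ρ) (h : T X) (η : ℕ → X) (hh : Dir P h η)
      (u : List (Lt P)), nM u = u.length → u.length + 2 = m → ρ l ≠ img h η l →
      EE (ev (.M g ρ hg :: .M h η hh :: u)) := by
  induction l with
  | zero =>
    intro g ρ hg h η hh u hu hm hne
    apply EE_of_sections
    intro x
    rw [ev_s]
    apply IH
    rw [ws, ws]
    have h1 := nM_ws_le u x
    by_cases hx : wp u x = η 0
    · have h2 : wp (.M h η hh :: u) x = img h η 0 := by
        change root h (wp u x) = root h (η 0)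
        rw [hx]
      rw [h2, sc_neg hg (fun h3 => hne h3.symm), nM_F, hx, sc_pos, nM_M]
      omega
    · rw [sc_neg hh hx]
      by_cases hx' : wp (.M h η hh :: u) x = ρ 0
      · rw [hx', sc_pos, nM_M, nM_F]
        omega
      · rw [sc_neg hg hx', nM_F, nM_F]
        omega
  | succ l ih =>
    intro g ρ hg h η hh u hu hm hne
    apply EE_of_sections
    intro x
    rw [ev_s]
    have h1 := nM_ws_le u x
    rw [ws, ws]
    by_cases hx : wp u x = η 0
    · by_cases hx' : wp (.M h η hh :: u) x = ρ 0
      · rw [hx', sc_pos, hx, sc_pos]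
        by_cases hn : nM (ws u x) = nM u
        · apply ih
          · rw [hn, hu, length_ws]
          · rw [length_ws, hm]
          · rw [img_shf]
            exact hne
        · apply IH
          rw [nM_M, nM_M]
          omega
      · rw [sc_neg hg hx']
        apply IH
        rw [nM_F, hx, sc_pos, nM_M]
        omega
    · rw [sc_neg hh hx]
      apply IH
      by_cases hx' : wp (.M h η hh :: u) x = ρ 0
      · rw [hx', sc_pos, nM_M, nM_F]
        omega
      · rw [sc_neg hg hx', nM_F, nM_F]
        omega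

/-- pure words -/
theorem en_pure (m : ℕ) (IH : ∀ w : List (Lt P), nM w < m → EE (ev w)) (u : List (Lt P))
    (hu : nM u = u.length) (hm : u.length = m) : EE (ev u) := by
  match u, hu, hm with
  | [], _, _ => exact EN_of_mem _ one_mem_Nn
  | [l], hu, _ =>
    cases l with
    | F f hf => exact absurd hu (by rw [nM_F]; exact Nat.zero_ne_one)
    | M g ρ h =>
      apply EN_of_mem
      refine Or.inr ⟨g, ρ, h, ?_⟩
      rw [ev, ev, mul_one]
      rfl
  | l :: l' :: u, hu, hm =>
    cases l with
    | F f hf =>
      have h1 := nM_le_length (l' :: u)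
      rw [nM_F, List.length_cons] at hu
      omega
    | M g ρ hg =>
      cases l' with
      | F f hf =>
        have h1 := nM_le_length u
        rw [nM_M, nM_F, List.length_cons, List.length_cons] at hu
        omega
      | M h η hh =>
        rw [nM_M, nM_M, List.length_cons, List.length_cons] at hu
        rw [List.length_cons, List.length_cons] at hm
        by_cases hc : ρ = img h η
        · subst hc
          have h1 : ev (.M g (img h η) hg :: .M h η hh :: u) =
              ev (.M (g * h) η (dir_mul hg hh) :: u) := by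
            rw [ev, ev, ev, ← mul_assoc]
            change mor P g (img h η) * mor P h η * ev u = mor P (g * h) η * ev u
            rw [mor_mul hg hh]
          rw [h1]
          apply IH
          rw [nM_M]
          omega
        · obtain ⟨l, hl⟩ := Function.ne_iff.1 hc
          exact en_junction m IH l g ρ hg h η hh u (by omega) (by omega) hl

/-- all words -/
theorem en_word (m : ℕ) : ∀ w : List (Lt P), nM w = m → EE (ev w) := by
  induction m using Nat.strong_induction_on with
  | _ m ih =>
    have IH : ∀ w : List (Lt P), nM w < m → EE (ev w) := fun w hw => ih _ hw w rfl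
    have main : ∀ (k : ℕ) (w : List (Lt P)), nM w = m → dep k w → EE (ev w) := by
      intro k
      induction k with
      | zero =>
        intro w hw hd
        obtain ⟨u, h1, h2, h3⟩ := exists_pure w hd
        rw [← h3]
        exact en_pure m IH u h1 (by omega)
      | succ k ihk =>
        intro w hw hd
        apply EE_of_sections
        intro x
        rw [ev_s]
        by_cases hn : nM (ws w x) = nM w
        · exact ihk _ (by omega) (dep_ws k w x hd hn)
        · have h1 := nM_ws_le w x
          exact IH _ (by omega)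
    intro w hw
    obtain ⟨k, hk⟩ := exists_dep w
    exact main k w hw hk

/-! ## all elements of the cover -/

/-- the inverse of a letter -/
def Lt.iv : Lt P → Lt P
  | .F f hf => .F f⁻¹ (inv_mem hf)
  | .M g ρ h => .M g⁻¹ (img g ρ) (dir_inv h)

theorem Lt.iv_val (l : Lt P) : l.iv.val = l.val⁻¹ := by
  cases l with
  | F f hf =>
    change fF P f⁻¹ = (fF P f)⁻¹
    rw [eq_inv_iff_mul_eq_one, ← fF_mul (inv_mem hf) hf, inv_mul_cancel, fF_one]
  | M g ρ h => exact (mor_inv h).symm

theorem ev_append (u v : List (Lt P)) : ev (u ++ v) = ev u * ev v := by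
  induction u with
  | nil => rw [List.nil_append, ev, one_mul]
  | cons l u ih => rw [List.cons_append, ev, ev, ih, mul_assoc]

variable (P) in
/-- the elements given by words -/
def Wd : Subgroup (Gam P) where
  carrier := Set.range ev
  one_mem' := ⟨[], rfl⟩
  mul_mem' := by
    rintro _ _ ⟨u, rfl⟩ ⟨v, rfl⟩
    exact ⟨u ++ v, ev_append u v⟩
  inv_mem' := by
    rintro _ ⟨u, rfl⟩
    induction u with
    | nil => exact ⟨[], by rw [ev, inv_one]⟩
    | cons l u ih =>
      obtain ⟨v, hv⟩ := ih
      refine ⟨v ++ [l.iv], ?_⟩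
      rw [ev_append, hv, ev, ev, ev, mul_one, l.iv_val, mul_inv_rev]

theorem Rr_Wd {g : T X} {ρ : ℕ → X} (h : Dir P g ρ) (x : X) : (Rr P g ρ).s x ∈ Wd P := by
  refine ⟨[(Lt.M g ρ h).sc x], ?_⟩
  rw [ev, ev, mul_one, ← Lt.sc_val]
  change (psi P (mor P g ρ)).s x = _
  rw [psi_mor h]

theorem sec_Wd (γ : Gam P) : ∀ x, (psi P γ).s x ∈ Wd P := by
  induction γ using gam_ind with
  | hF f =>
    intro x
    rw [psi_iF]
    refine ⟨[Lt.F (sec f.1 x) (Fn_sec f.2 x)], ?_⟩
    rw [ev, ev, mul_one]
    rfl
  | hD c g =>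
    intro x
    rw [psi_iD]
    exact Rr_Wd g.2.1 x
  | hT ρ =>
    intro x
    rw [psi_iT]
    exact Rr_Wd (dir_con P ρ) x
  | h1 =>
    intro x
    rw [map_one]
    exact one_mem _
  | hinv g h =>
    intro x
    rw [map_inv]
    exact inv_mem (h _)
  | hmul g h h1 h2 =>
    intro x
    rw [map_mul]
    exact mul_mem (h1 _) (h2 _)

theorem en_all (γ : Gam P) : EE γ := by
  apply EE_of_sections
  intro x
  obtain ⟨w, hw⟩ := sec_Wd γ x
  rw [← hw]
  exact en_word _ w rfl

end

end Pool.Agent.X265.Inf
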